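import Mathlib

set_option autoImplicit false

namespace Pool.Agent.Results.MP_81a4f1_co.Cex

open SimpleGraph

/-- Local independence number: independence number of the subgraph induced on `N(v)`. -/
noncomputable def loc {V : Type} (G : SimpleGraph V) (v : V) : ℕ :=
  (G.induce (G.neighborSet v)).indepNum

/-- Number of vertices whose local independence number is the maximum. -/
noncomputable def freq {V : Type} (G : SimpleGraph V) : ℕ := {v | ∀ w, loc G w ≤ loc G v}.ncard

def r (a b : Fin 11) : Bool := decide (a ≠ b) &&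
  (if a.1 < 2 then b.1 == 2 else if b.1 < 2 then a.1 == 2 else decide (5 ≤ a.1 ∨ 5 ≤ b.1))

def G : SimpleGraph (Fin 11) where
  Adj a b := r a b
  symm := ⟨by decide +kernel⟩
  loopless := ⟨by decide +kernel⟩

instance : DecidableRel G.Adj := fun a b => inferInstanceAs (Decidable (r a b = true))

theorem h4 : ∀ v a, r v a → ∀ b, r v b → a ≠ b → ¬ r a b → ∀ c, r v c → a ≠ c → b ≠ c →
    ¬ r a c → ¬ r b c → ∀ d, r v d → a ≠ d → b ≠ d → c ≠ d → r a d ∨ r b d ∨ r c d := by
  decide +kernel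

theorem up (v : Fin 11) : loc G v ≤ 3 := by
  obtain ⟨s, hs, hc⟩ := (G.induce (G.neighborSet v)).exists_isNIndepSet_indepNum
  rw [loc, ← hc]
  by_contra h
  obtain ⟨a, b, c, d, ha, hb, hc, hd, ab, ac, ad, bc, bd, cd⟩ :=
    Finset.three_lt_card_iff.1 (not_le.1 h)
  rcases h4 v a a.2 b b.2 (Subtype.val_injective.ne ab) (hs ha hb ab) c c.2
    (Subtype.val_injective.ne ac) (Subtype.val_injective.ne bc) (hs ha hc ac) (hs hb hc bc) d d.2
    (Subtype.val_injective.ne ad) (Subtype.val_injective.ne bd) (Subtype.val_injective.ne cd)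
    with h | h | h
  · exact hs ha hd ad h
  · exact hs hb hd bd h
  · exact hs hc hd cd h

theorem h3 : ∀ v ∈ ({2, 5, 6, 7, 8, 9, 10} : Finset (Fin 11)), ∃ s : Finset (G.neighborSet v),
    s.card = 3 ∧ ∀ a ∈ s, ∀ b ∈ s, ¬ r a b := by
  intro v hv
  by_cases h : v = 2
  · subst h
    exact ⟨{⟨0, rfl⟩, ⟨1, rfl⟩, ⟨5, rfl⟩}, by decide +kernel, by decide +kernel⟩
  · have : r v 2 ∧ r v 3 ∧ r v 4 := by revert v; decide +kernel
    refine ⟨{⟨2, this.1⟩, ⟨3, this.2.1⟩, ⟨4, this.2.2⟩}, Finset.card_eq_three.2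
      ⟨_, _, _, by simp, by simp, by simp, rfl⟩, ?_⟩
    simp only [Finset.mem_insert, Finset.mem_singleton, forall_eq_or_imp, forall_eq]
    decide +kernel

theorem hf : 7 ≤ freq G := by
  have : ((({2, 5, 6, 7, 8, 9, 10} : Finset (Fin 11)) : Set (Fin 11))).ncard = 7 := by
    rw [Set.ncard_coe_finset]; rfl
  rw [← this]
  refine Set.ncard_le_ncard (fun v hv w => (up w).trans ?_) (Set.toFinite _)
  obtain ⟨s, h1, h2⟩ := h3 v hv
  rw [← h1]
  exact IsIndepSet.card_le_indepNum fun a ha b hb _ => h2 a ha b hb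

theorem noham (a b : Fin 11) (p : G.Walk a b) : ¬ p.IsHamiltonian := by
  intro hp
  have hl : p.length = 10 := hp.length_eq
  have inj : ∀ i j, i ≤ 10 → j ≤ 10 → p.getVert i = p.getVert j → i = j := fun i j hi hj h =>
    hp.isPath.getVert_injOn (hl ▸ hi) (hl ▸ hj) h
  have pd : ∀ x y : Fin 11, x.1 < 2 → (r x y ∨ r y x) → y = 2 := by decide +kernel
  have nx : ∀ i, i < 10 → (p.getVert i).1 < 2 → p.getVert (i + 1) = 2 := fun i hi h =>
    pd _ _ h (Or.inl (p.adj_getVert_succ (hl ▸ hi)))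
  have pv : ∀ i, i < 10 → (p.getVert (i + 1)).1 < 2 → p.getVert i = 2 := fun i hi h =>
    pd _ _ h (Or.inr (p.adj_getVert_succ (hl ▸ hi)))
  have en : ∀ i, i ≤ 10 → (p.getVert i).1 < 2 → i = 0 ∨ i = 10 := fun i hi h => by
    rcases i with _ | i
    · exact Or.inl rfl
    by_contra hc
    have := inj i (i + 1 + 1) (by omega) (by omega)
      ((pv i (by omega) h).trans (nx (i + 1) (by omega) h).symm)
    omega
  obtain ⟨i, hi, li⟩ := Walk.mem_support_iff_exists_getVert.1 (hp.mem_support 0)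
  obtain ⟨j, hj, lj⟩ := Walk.mem_support_iff_exists_getVert.1 (hp.mem_support 1)
  rw [hl] at li lj
  have a1 : (p.getVert i).1 < 2 := by rw [hi]; decide
  have a2 : (p.getVert j).1 < 2 := by rw [hj]; decide
  have ne : i ≠ j := fun e => absurd (hi.symm.trans (e ▸ hj)) (by decide)
  have key : (p.getVert 0).1 < 2 → (p.getVert 10).1 < 2 → False := fun x y => by
    have := inj 1 9 (by omega) (by omega) ((nx 0 (by omega) x).trans (pv 9 (by omega) y).symm)
    omega
  rcases en i li a1 with rfl | rfl <;> rcases en j lj a2 with rfl | rfl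
  · exact ne rfl
  · exact key a1 a2
  · exact key a2 a1
  · exact ne rfl

theorem result : ¬ ∀ (n : ℕ) (G : SimpleGraph (Fin n)), 1 < n → G.Connected →
    (1 / 6 : ℚ) * (1 + 2 * (Gᶜ.edgeSet.ncard : ℚ)) ≤ freq G →
      ∃ (a b : Fin n) (p : G.Walk a b), p.IsHamiltonian := by
  intro h
  have hc : G.Connected := by
    have h1 : ∀ a : Fin 11, a = 2 ∨ r a 2 ∨ r a 5 := by decide +kernel
    have h2 : ∀ a, G.Reachable a 2 := fun a => by
      rcases h1 a with rfl | h | h
      · rfl
      · exact Adj.reachable h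
      · exact (Adj.reachable h).trans (Adj.reachable (by decide : G.Adj 5 2))
    exact ⟨fun a b => (h2 a).trans (h2 b).symm⟩
  have he : Gᶜ.edgeSet.ncard = 20 := by
    rw [← coe_edgeFinset, Set.ncard_coe_finset]
    have := Gᶜ.sum_degrees_eq_twice_card_edges
    have e : ∑ v, Gᶜ.degree v = 40 := by decide +kernel
    omega
  obtain ⟨a, b, p, hp⟩ := h 11 G (by norm_num) hc (by
    have : (7 : ℚ) ≤ freq G := by exact_mod_cast hf
    rw [he]
    norm_num
    linarith)
  exact noham a b p hp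

end Pool.Agent.Results.MP_81a4f1_co.Cex
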